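import Mathlib
import Pool.Agent.H26.CU.Exc

set_option autoImplicit false

/-!
Cuttings of the trajectories of the `3x+1` map into short words, and the exceptions to `l(n) ≤ n`: there
are at least `c log n` ends of runs of equal ascending words, for every `c < 1 / log (log 3 / log 2)`.
-/

namespace Pool.Agent.Results.MP_e43fce_nt.AscendingRuns

/-- The Collatz function. -/
def Col (n : ℕ) : ℕ := if n % 2 = 0 then n / 2 else 3 * n + 1

/-- The accelerated Collatz function. -/
def T (n : ℕ) : ℕ := if n % 2 = 0 then n / 2 else (3 * n + 1) / 2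

/-- `0 = t 0 < t 1 < ... < t r = m`, with gaps at most `ℓ`: the first `m` steps of the trajectory are
cut into `r` pieces of at most `ℓ` steps. -/
def IsCutting (t : ℕ → ℕ) (r m ℓ : ℕ) : Prop :=
  t 0 = 0 ∧ t r = m ∧ ∀ i < r, t i < t (i + 1) ∧ t (i + 1) ≤ t i + ℓ

/-- The word of the piece `i`: the parities of the terms `T^k n`, `t i ≤ k < t (i + 1)`. -/
def word (n : ℕ) (t : ℕ → ℕ) (i : ℕ) : List ℕ :=
  (List.range (t (i + 1) - t i)).map fun j => T^[t i + j] n % 2

/-- A word is ascending if `2 ^ length < 3 ^ (number of odd letters)`. -/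
def Ascending (u : List ℕ) : Prop := 2 ^ u.length < 3 ^ u.count 1

open Classical in
/-- The pieces `i` (but the last one) whose word is ascending and different from the word of the next
piece: the ends of the runs of equal ascending words. -/
noncomputable def turns (n : ℕ) (t : ℕ → ℕ) (r : ℕ) : Finset ℕ :=
  (Finset.range (r - 1)).filter fun i => Ascending (word n t i) ∧ word n t (i + 1) ≠ word n t i

/-- Let `c < 1 / log (log 3 / log 2)`.

(1) There is `C` such that for every trajectory with different first `m` terms and every cutting of its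
first `m` steps into pieces of at most `ℓ` steps, the number of the ends of the runs of equal ascending
words is at least `c log m - C (1 + log ℓ + log (1 + log n))`.

(2) There are `ε, η > 0` such that for all large `n` with `l(n) > n` either the trajectory of `n` enters
a cycle which does not contain `1` within at most `n ^ (1 - ε)` steps, or every cutting of the first
`n / 2` steps into pieces of at most `n ^ η` steps has at least `c log n` ends of runs of equal ascending
words. -/
theorem result :
    (∀ c : ℝ, c < 1 / Real.log (Real.log 3 / Real.log 2) → ∃ C : ℝ,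
      ∀ (n : ℕ) (t : ℕ → ℕ) (r m ℓ : ℕ), 1 ≤ n → IsCutting t r m ℓ →
        (∀ i j, i < m → j < m → T^[i] n = T^[j] n → i = j) →
        c * Real.log m ≤ (turns n t r).card + C * (1 + Real.log ℓ + Real.log (1 + Real.log n))) ∧
    (∀ c : ℝ, c < 1 / Real.log (Real.log 3 / Real.log 2) → ∃ ε η : ℝ, 0 < ε ∧ ε < 1 ∧ 0 < η ∧
      ∃ N : ℕ, ∀ n : ℕ, N ≤ n → (∀ k ≤ n, Col^[k] n ≠ 1) →
        ((∃ j π : ℕ, 1 ≤ π ∧ ((j + π : ℕ) : ℝ) ≤ (n : ℝ) ^ (1 - ε) ∧ T^[j + π] n = T^[j] n) ∧
          ∀ i, T^[i] n ≠ 1) ∨
        ∀ (t : ℕ → ℕ) (r ℓ : ℕ), IsCutting t r (n / 2) ℓ → (ℓ : ℝ) ≤ (n : ℝ) ^ η →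
          c * Real.log n ≤ (turns n t r).card) := by
  refine ⟨fun c hc => ?_, fun c hc => Pool.Agent.H26.CU.exc c hc⟩
  obtain ⟨C, -, h⟩ := Pool.Agent.H26.CU.traj_all c hc
  exact ⟨C, h⟩

end Pool.Agent.Results.MP_e43fce_nt.AscendingRuns
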