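import Mathlib
import Pool.Agent.H55.DK.All
import Pool.Agent.H55.DK.ERR

set_option autoImplicit false

/-!
Complete Collatz trajectories converge to Brownian motion.

Let `l(n)` be the total stopping time of `n` and, for `k ≤ l(n)`,
`dev n k = log C^k(n) - log n + (k / 3) log (4 / 3)`, the deviation of the trajectory from the line which it
should follow; at the end `dev n (l(n)) = (log (4 / 3) / 3) l(n) - log n`. For the integers which reach `1`
the path `s ↦ dev n ⌊s l(n)⌋ / scale n`, `0 ≤ s ≤ 1`, the whole trajectory down to `1`, converges in law to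
Brownian motion. For its maximum, jointly with the total stopping time, the limit law is given explicitly.
-/

namespace Pool.Agent.Results.MP_e43fce_nt.BrownianLimit

open Filter Topology MeasureTheory ProbabilityTheory
open scoped NNReal

/-- The Collatz function. -/
def C (n : ℕ) : ℕ := if n % 2 = 0 then n / 2 else 3 * n + 1

/-- Some iterate of `n` is `1`. -/
def Reaches (n : ℕ) : Prop := ∃ k, C^[k] n = 1

/-- The total stopping time `l(n)` of an `n` which reaches `1`: the least `k` with `C^k(n) = 1`. -/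
noncomputable def l (n : ℕ) : ℕ := sInf {k : ℕ | C^[k] n = 1}

/-- `log C^k(n) - log n + (k / 3) log (4 / 3)` -/
noncomputable def dev (n k : ℕ) : ℝ := Real.log (C^[k] n : ℕ) - Real.log n + k / 3 * Real.log (4 / 3)

/-- `(log 6 / 3) √(2 log n / log (4 / 3))` -/
noncomputable def scale (n : ℕ) : ℝ := Real.log 6 / 3 * Real.sqrt (2 * Real.log n / Real.log (4 / 3))

/-- The rescaled trajectory of `n`, in units of the total stopping time, at the time `s`. -/
noncomputable def path (n : ℕ) (s : ℝ) : ℝ := dev n ⌊s * l n⌋₊ / scale n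

/-- The functional `F` is bounded, and uniformly continuous in the sup norm on `[0, 1]`. -/
def IsTest (F : (ℝ → ℝ) → ℝ) : Prop := (∃ M : ℝ, ∀ f, |F f| ≤ M) ∧ ∀ ε : ℝ, 0 < ε → ∃ η : ℝ, 0 < η ∧
  ∀ f g : ℝ → ℝ, (∀ s, 0 ≤ s → s ≤ 1 → |f s - g s| ≤ η) → |F f - F g| ≤ ε

/-- The positive integers with the property `P` have the natural density `d`. -/
def HasDensity (P : ℕ → Prop) (d : ℝ) : Prop :=
  Tendsto (fun N : ℕ => ({n : ℕ | 1 ≤ n ∧ n ≤ N ∧ P n}.ncard : ℝ) / N) atTop (𝓝 d)

/-- The distribution function of the standard normal law. -/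
noncomputable def Phi (x : ℝ) : ℝ := ProbabilityTheory.cdf (ProbabilityTheory.gaussianReal 0 1) x

open Classical in
/-- The integers `n ≤ N` which reach `1`. -/
noncomputable def reach (N : ℕ) : Finset ℕ := (Finset.Icc 1 N).filter Reaches

/-- The integers which reach `1` have a natural density `δ > 0` (known), and

(1) for every Brownian motion `B` and every bounded functional `F` which is uniformly continuous in the sup
norm on `[0, 1]`, the mean of `F (path n)` over the `n ≤ N` which reach `1` tends to `E F(B)`;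

(2) for `y ≥ 0` and all `z` the `n` which reach `1` and have `dev n k ≤ y * scale n` for all `k ≤ l(n)` and
`dev n (l(n)) ≤ z * scale n` have the natural density `δ (Φ(min(y, z)) - Φ(min(y, z) - 2 y))`;

(3) for `y ≥ 0` the `n` which reach `1` and have `dev n k ≤ y * scale n` for all `k ≤ l(n)` have the natural
density `δ (2 Φ(y) - 1)`. -/
theorem result : ∃ δ : ℝ, 0 < δ ∧ δ ≤ 1 ∧ (δ = 1 ↔ ∀ n : ℕ, 1 ≤ n → Reaches n) ∧ HasDensity Reaches δ ∧
    (∀ (Ω : Type) [MeasurableSpace Ω] (P : Measure Ω) [IsProbabilityMeasure P] (B : ℝ≥0 → Ω → ℝ),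
      IsBrownianReal B P → ∀ F : (ℝ → ℝ) → ℝ, IsTest F →
      Tendsto (fun N : ℕ => (∑ n ∈ reach N, F (path n)) / ((reach N).card : ℝ)) atTop
        (𝓝 (∫ ω, F (fun s => B s.toNNReal ω) ∂P))) ∧
    (∀ y z : ℝ, 0 ≤ y → HasDensity
      (fun n => Reaches n ∧ (∀ k ≤ l n, dev n k ≤ y * scale n) ∧ dev n (l n) ≤ z * scale n)
      (δ * (Phi (min y z) - Phi (min y z - 2 * y)))) ∧
    (∀ y : ℝ, 0 ≤ y → HasDensity (fun n => Reaches n ∧ ∀ k ≤ l n, dev n k ≤ y * scale n)
      (δ * (2 * Phi y - 1))) := by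
  obtain ⟨δ, h0, h1, h2, h3, _⟩ := Pool.Agent.H55.UL.tail
  have hE := Pool.Agent.H55.DK.ERR.main
  have hiff : ∀ n, Reaches n ↔ Pool.Agent.H55.UL.R n := fun n => Pool.Agent.H55.DK.reach_iff n
  have hR : Reaches = Pool.Agent.H55.UL.R := funext fun n => propext (hiff n)
  have hl : ∀ n t, Pool.Agent.H55.DK.IsTC n t → l n = t := fun n t h => Pool.Agent.H55.DK.DET.len_eq h
  have hT : ∀ n, Reaches n → ∃ t, Pool.Agent.H55.DK.IsTC n t := by
    classical
    intro n hn
    have hex : ∃ k, Pool.Agent.H55.DK.C^[k] n = 1 := hn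
    exact ⟨Nat.find hex, Nat.find_spec hex, fun j hj => Nat.find_min hex hj⟩
  refine ⟨δ, h0, h1, ?_, ?_, ?_, ?_, ?_⟩
  · rw [h2]
    exact ⟨fun h n hn => (hiff n).2 (h n hn), fun h n hn => (hiff n).1 (h n hn)⟩
  · rw [hR]
    exact h3
  · intro Ω _ P _ B hB F hF
    have h := Pool.Agent.H55.DK.mean_lim (Pool.Agent.H55.DK.fclt hE) h3 h0 Ω P B hB F hF.1 hF.2
    unfold reach
    rw [hR]
    exact h
  · intro y z hy
    have h := Pool.Agent.H55.DK.joint (Pool.Agent.H55.DK.fin hE) h3 z hy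
    have e : (fun n => Reaches n ∧ (∀ k ≤ l n, dev n k ≤ y * scale n) ∧ dev n (l n) ≤ z * scale n) =
        (fun n => ∃ t, Pool.Agent.H55.DK.IsTC n t ∧ (∀ k ≤ t, Pool.Agent.H55.DK.dev n k ≤
          y * Pool.Agent.H55.DK.scale n) ∧ Pool.Agent.H55.DK.dev n t ≤ z * Pool.Agent.H55.DK.scale n) := by
      funext n
      apply propext
      constructor
      · rintro ⟨a1, a2, a3⟩
        obtain ⟨t, ht⟩ := hT n a1
        rw [hl n t ht] at a2 a3
        exact ⟨t, ht, a2, a3⟩
      · rintro ⟨t, ht, a2, a3⟩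
        refine ⟨⟨t, ht.1⟩, ?_, ?_⟩
        · rw [hl n t ht]; exact a2
        · rw [hl n t ht]; exact a3
    rw [e]
    exact h
  · intro y hy
    have h := Pool.Agent.H55.DK.maxlaw (Pool.Agent.H55.DK.fin hE) h3 hy
    have e : (fun n => Reaches n ∧ ∀ k ≤ l n, dev n k ≤ y * scale n) =
        (fun n => ∃ t, Pool.Agent.H55.DK.IsTC n t ∧ ∀ k ≤ t, Pool.Agent.H55.DK.dev n k ≤
          y * Pool.Agent.H55.DK.scale n) := by
      funext n
      apply propext
      constructor
      · rintro ⟨a1, a2⟩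
        obtain ⟨t, ht⟩ := hT n a1
        rw [hl n t ht] at a2
        exact ⟨t, ht, a2⟩
      · rintro ⟨t, ht, a2⟩
        refine ⟨⟨t, ht.1⟩, ?_⟩
        rw [hl n t ht]; exact a2
    rw [e]
    exact h

end Pool.Agent.Results.MP_e43fce_nt.BrownianLimit
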