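import Mathlib
import Pool.Agent.H15.St.Exc

set_option autoImplicit false

/-!
If `l(n) > n`, then many of the first `n / 2` terms of the (accelerated) trajectory of `n` have a long
stopping time.
-/

namespace Pool.Agent.Results.MP_e43fce_nt.LongStoppingTimes

/-- The Collatz function. -/
def Col (n : ℕ) : ℕ := if n % 2 = 0 then n / 2 else 3 * n + 1

/-- The accelerated Collatz function. -/
def T (n : ℕ) : ℕ := if n % 2 = 0 then n / 2 else (3 * n + 1) / 2

/-- The times `i < n / 2` at which the term `x = T^i n` is larger than `2` and has a stopping time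
larger than `S`: none of `T x, ..., T^S x` is smaller than `x`. -/
def longTimes (S n : ℕ) : Set ℕ :=
  {i | i < n / 2 ∧ 2 < T^[i] n ∧ ∀ j, 1 ≤ j → j ≤ S → T^[i] n ≤ T^[i + j] n}

/-- There are `C` and `N` such that for every `n ≥ N` with `l(n) > n` (`l(n) = ∞` allowed) and all
`S ≥ 1` with `S ^ 52 ≤ n` at least `n / (C S ^ 51)` of the first `n / 2` terms of the accelerated
trajectory of `n` have a stopping time larger than `S`. -/
theorem result : ∃ C : ℝ, ∃ N : ℕ, ∀ n : ℕ, N ≤ n → (∀ k ≤ n, Col^[k] n ≠ 1) →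
    ∀ S : ℕ, 1 ≤ S → S ^ 52 ≤ n → (n : ℝ) ≤ C * (S : ℝ) ^ 51 * (longTimes S n).ncard := by
  obtain ⟨N, hN⟩ := Pool.Agent.H15.St.exc
  exact ⟨12 * Pool.Agent.H15.St.K0, N, fun n hn hc S hS hSn => hN n hn hc S hS hSn⟩

end Pool.Agent.Results.MP_e43fce_nt.LongStoppingTimes
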