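import Pool.Agent.H33.PD.L

set_option autoImplicit false

/-! # The inequality `l(n) ≤ n` at the primes

`l(n)` is the least number of steps of the Collatz function `C` from `n` to `1`. Almost all primes `p` (in
the sense of relative density among the primes) have `l(p) = ∞` or `l(p) / log p` within `ε` of
`3 / log (4/3) = 10.428...`; so the inequality `l(p) ≤ p` fails, up to a set of primes of relative density
`0`, only where `l(p) = ∞`. If some `l(n)` is infinite, this happens for a positive proportion of the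
primes. Hence the `3x+1` conjecture is true if and only if `l(p) ≤ p` for almost all primes `p`, and also if
and only if `l(p) ≤ F(p)` for almost all primes `p`, where `F` is any given function with
`F(p) ≥ K log p` and `K > 3 / log (4/3)`. -/

namespace Pool.Agent.Results.MP_e43fce_nt.PrimesInTheInequality

open Filter Topology

/-- the Collatz function -/
def C (n : ℕ) : ℕ := if n % 2 = 0 then n / 2 else 3 * n + 1

/-- the total stopping time `l(n)` is finite and equal to `l`: the least number of steps from `n` to `1`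
is `l` -/
def IsTotalStoppingTime (n l : ℕ) : Prop := C^[l] n = 1 ∧ ∀ j < l, C^[j] n ≠ 1

/-- `l(n) ≤ B` (in particular `l(n)` is finite) -/
def AtMost (n : ℕ) (B : ℝ) : Prop := ∃ l : ℕ, IsTotalStoppingTime n l ∧ (l : ℝ) ≤ B

/-- the number of the primes `p ≤ N` with the property `P` -/
noncomputable def primesWith (P : ℕ → Prop) (N : ℕ) : ℕ := {p : ℕ | p.Prime ∧ p ≤ N ∧ P p}.ncard

/-- almost all primes have the property `P` -/
def AlmostAllPrimes (P : ℕ → Prop) : Prop :=
  Tendsto (fun N : ℕ => (primesWith P N : ℝ) / Nat.primeCounting N) atTop (𝓝 1)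

/-- the constant `3 / log (4/3) = 10.428...` -/
noncomputable def c : ℝ := 3 / Real.log (4 / 3)

/-- the `3x+1` conjecture: `l(n)` is finite for every `n ≥ 1` -/
def Conjecture : Prop := ∀ n : ℕ, 1 ≤ n → ∃ l, IsTotalStoppingTime n l

/-! ### proofs -/

open Pool.Agent.H33.PD

open Classical in
theorem primesWith_eq (P : ℕ → Prop) (N : ℕ) :
    primesWith P N = ((Finset.Icc 1 N).filter (fun p => p.Prime ∧ P p)).card := by
  unfold primesWith
  rw [← Set.ncard_coe_finset]
  congr 1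
  ext p
  simp only [Set.mem_ofPred_eq, Finset.coe_filter, Finset.mem_Icc]
  constructor
  · rintro ⟨h1, h2, h3⟩
    exact ⟨⟨h1.one_lt.le, h2⟩, h1, h3⟩
  · rintro ⟨⟨_, h2⟩, h1, h3⟩
    exact ⟨h1, h2, h3⟩

theorem noPrimes_ncard {P : ℕ → Prop} (h : NoPrimes P) {ε : ℝ} (hε : 0 < ε) :
    ∀ᶠ N : ℕ in atTop, (primesWith P N : ℝ) ≤ ε * Nat.primeCounting N := by
  filter_upwards [h ε hε] with N h1
  rw [primesWith_eq]
  refine le_trans (le_of_eq ?_) h1
  congr!

theorem primesWith_true (N : ℕ) : primesWith (fun _ => True) N = Nat.primeCounting N := by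
  rw [primesWith_eq, Nat.primeCounting, Nat.primeCounting', Nat.count_eq_card_filter_range]
  congr 1
  ext p
  simp only [Finset.mem_filter, Finset.mem_range, Finset.mem_Icc, and_true]
  constructor
  · rintro ⟨⟨_, h2⟩, h3⟩
    exact ⟨by omega, h3⟩
  · rintro ⟨h2, h3⟩
    exact ⟨⟨h3.one_lt.le, by omega⟩, h3⟩

theorem primesWith_add (P : ℕ → Prop) (N : ℕ) :
    primesWith P N + primesWith (fun p => ¬ P p) N = Nat.primeCounting N := by
  rw [← primesWith_true]
  unfold primesWith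
  rw [← Set.ncard_union_eq ?_ ((Set.finite_Iic N).subset (fun p hp => hp.2.1))
    ((Set.finite_Iic N).subset (fun p hp => hp.2.1))]
  · congr 1
    ext p
    simp only [Set.mem_union, Set.mem_ofPred_eq]
    tauto
  · rw [Set.disjoint_left]
    rintro p ⟨_, _, h1⟩ ⟨_, _, h2⟩
    exact h2 h1

theorem almostAll_of {P : ℕ → Prop} (h : NoPrimes (fun p => ¬ P p)) : AlmostAllPrimes P := by
  unfold AlmostAllPrimes
  rw [Metric.tendsto_atTop]
  intro ε hε
  obtain ⟨N₀, hN₀⟩ := eventually_atTop.1 (noPrimes_ncard h (show 0 < ε / 2 by positivity))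
  refine ⟨max N₀ 2, fun N hN => ?_⟩
  have h1 := hN₀ N ((le_max_left _ _).trans hN)
  have hN2 : 2 ≤ N := (le_max_right _ _).trans hN
  have hπ : 0 < Nat.primeCounting N := by
    have h2 : Nat.primeCounting 2 ≤ Nat.primeCounting N := Nat.monotone_primeCounting hN2
    have h3 : Nat.primeCounting 2 = 1 := by decide
    omega
  have hπR : (0 : ℝ) < Nat.primeCounting N := by exact_mod_cast hπ
  have hsum : (primesWith P N : ℝ) + primesWith (fun p => ¬ P p) N = Nat.primeCounting N := by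
    exact_mod_cast primesWith_add P N
  rw [Real.dist_eq, abs_lt]
  have e1 : (primesWith P N : ℝ) / Nat.primeCounting N - 1 =
      -((primesWith (fun p => ¬ P p) N : ℝ) / Nat.primeCounting N) := by
    rw [div_sub_one hπR.ne', ← neg_div]
    congr 1
    linarith
  have h4 : (primesWith (fun p => ¬ P p) N : ℝ) / Nat.primeCounting N ≤ ε / 2 := by
    rw [div_le_iff₀ hπR]; exact h1
  have h5 : 0 ≤ (primesWith (fun p => ¬ P p) N : ℝ) / Nat.primeCounting N := by positivity
  rw [e1]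
  constructor <;> linarith

/-- the upper bound of Chebyshev -/
theorem cheb_upper {N : ℕ} (hN : 2 ≤ N) : (Nat.primeCounting N : ℝ) ≤ 20 * (N / Real.log N) := by
  have h1 := Pool.Agent.W38.PR.bt_unif (a := 1) (q := 1) (N := N) le_rfl hN
  have h2 : ((1 : ℕ) : ℝ) / Nat.totient 1 = 1 := by simp
  rw [h2, mul_one] at h1
  refine le_trans ?_ h1
  rw [Nat.primeCounting, Nat.primeCounting', Nat.count_eq_card_filter_range]
  have : ((Finset.range (N + 1)).filter Nat.Prime).card ≤
      ((Finset.range N).filter (fun k => (1 + k * 1).Prime)).card := by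
    apply Finset.card_le_card_of_injOn (fun p => p - 1)
    · intro p hp
      rw [Finset.mem_coe, Finset.mem_filter, Finset.mem_range] at hp
      have h3 := hp.2.one_lt
      rw [Finset.mem_coe, Finset.mem_filter, Finset.mem_range]
      beta_reduce
      have e : 1 + (p - 1) * 1 = p := by omega
      rw [e]
      exact ⟨by omega, hp.2⟩
    · intro p hp q hq h
      rw [Finset.mem_coe, Finset.mem_filter] at hp hq
      have h3 := hp.2.one_lt
      have h4 := hq.2.one_lt
      beta_reduce at h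
      omega
  exact_mod_cast this

open Pool.Agent.H499R2.ND (Tn Bas Bas_inv NS NS_inv dens_side one_pos)

theorem tot_of_Tn {n : ℕ} (hn : 1 ≤ n) (h : ∃ k, Tn^[k] n = 1) : ∃ l, IsTotalStoppingTime n l := by
  classical
  exact ⟨_, L.tot_of (Nat.find h) n hn (Nat.find_spec h) (fun j hj => Nat.find_min h hj)⟩

theorem Tn_of_tot {n : ℕ} (h : ∃ l, IsTotalStoppingTime n l) : ∃ k, Tn^[k] n = 1 := by
  obtain ⟨l, hl, _⟩ := h
  exact L.reach_of l n hl

/-- an invariant property which holds once holds for a positive proportion of the primes -/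
theorem inv_primes {P : ℕ → Prop} (hP : ∀ n : ℕ, 1 ≤ n → (P n ↔ P (Tn n))) {m : ℕ} (hm : 1 ≤ m)
    (hPm : P m) : ∃ a : ℝ, 0 < a ∧ ∀ᶠ N : ℕ in atTop,
      a * Nat.primeCounting N ≤ primesWith P N := by
  obtain ⟨δ, _, _, hδ⟩ := dens_side odd_one isCoprime_one_left (Or.inl rfl : (1 : ℤ) = 1 ∨ _)
    (NS_inv hP)
  have hδ0 : 0 < δ := one_pos (Or.inl rfl) (NS_inv hP) (a := (m : ℤ))
    ⟨by exact_mod_cast hm, by rwa [Int.toNat_natCast]⟩ (by omega) hδ
  obtain ⟨c₁, hc₁, h₁⟩ := Pool.Agent.K1H87.PR.primes_lin (Or.inl rfl : (1 : ℤ) = 1 ∨ _)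
    (le_refl (1 : ℤ)) hδ0
  refine ⟨c₁ / 20, by positivity, ?_⟩
  filter_upwards [h₁, eventually_ge_atTop 2] with N h2 hN
  have h3 := h2 (NS P) (NS_inv hP) δ hδ le_rfl 0 (by simp)
  have h4 := cheb_upper hN
  have h5 : c₁ / 20 * (Nat.primeCounting N : ℝ) ≤ c₁ * (N / Real.log N) := by
    have := mul_le_mul_of_nonneg_left h4 (show 0 ≤ c₁ / 20 by positivity)
    linarith
  refine h5.trans (h3.trans ?_)
  unfold primesWith
  have hfin : {p : ℕ | p.Prime ∧ p ≤ N ∧ P p}.Finite :=
    (Set.finite_Iic N).subset (fun p hp => hp.2.1)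
  have hsub : {p : ℕ | p.Prime ∧ (N : ℤ) ≤ 4 * (1 * p + 0) ∧ (1 * p + 0 : ℤ) ≤ N ∧
      (1 : ℤ) * (1 * p + 0) ∈ NS P} ⊆ {p : ℕ | p.Prime ∧ p ≤ N ∧ P p} := by
    rintro p ⟨h6, _, h7, h8⟩
    have e : (1 : ℤ) * (1 * p + 0) = (p : ℤ) := by ring
    rw [e] at h8
    obtain ⟨_, hk⟩ := h8
    rw [Int.toNat_natCast] at hk
    exact ⟨h6, by omega, hk⟩
  exact_mod_cast Set.ncard_le_ncard hsub hfin

theorem primesWith_mono {P Q : ℕ → Prop} {N : ℕ} (h : ∀ p : ℕ, p.Prime → P p → Q p) :
    primesWith P N ≤ primesWith Q N := by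
  unfold primesWith
  refine Set.ncard_le_ncard ?_ ((Set.finite_Iic N).subset (fun p hp => hp.2.1))
  rintro p ⟨h1, h2, h3⟩
  exact ⟨h1, h2, h p h1 h3⟩

/-- the primes with a finite but untypical total stopping time -/
theorem bad_zero {ε : ℝ} (hε : 0 < ε) : NoPrimes (fun p => (∃ l, IsTotalStoppingTime p l) ∧
    ¬ ∃ l : ℕ, IsTotalStoppingTime p l ∧ |(l : ℝ) / Real.log p - c| ≤ ε) := by
  refine (L.steps_of_primes hε).mono fun p _ ⟨⟨l, hl⟩, hno⟩ => ⟨⟨l, hl.1⟩, ?_⟩
  rintro ⟨l', h1, h2⟩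
  exact hno ⟨l', h1, h2⟩

/-- no infinite total stopping time, or a positive proportion of the primes has it -/
theorem not_conj (h : ¬ Conjecture) : ∃ a : ℝ, 0 < a ∧ ∀ᶠ N : ℕ in atTop,
    a * Nat.primeCounting N ≤ primesWith (fun p => ∀ l, ¬ IsTotalStoppingTime p l) N := by
  unfold Conjecture at h
  push Not at h
  obtain ⟨m, hm, hno⟩ := h
  have hacc : ∀ n : ℕ, 1 ≤ n → ((¬ Bas n) ↔ (¬ Bas (Tn n))) := fun n _ => not_congr (Bas_inv n)
  obtain ⟨a, ha, h1⟩ := inv_primes hacc hm (fun hb => by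
    obtain ⟨l, hl⟩ := tot_of_Tn hm hb
    exact hno l hl)
  refine ⟨a, ha, ?_⟩
  filter_upwards [h1] with N h2
  refine h2.trans (Nat.cast_le.2 (primesWith_mono (P := fun p => ¬ Bas p) ?_))
  exact fun p _ hp l hl => hp (Tn_of_tot ⟨l, hl⟩)

theorem pi_pos {N : ℕ} (hN : 2 ≤ N) : (0 : ℝ) < Nat.primeCounting N := by
  have h2 : Nat.primeCounting 2 ≤ Nat.primeCounting N := Nat.monotone_primeCounting hN
  have h3 : Nat.primeCounting 2 = 1 := by decide
  have : 0 < Nat.primeCounting N := by omega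
  exact_mod_cast this

/-- the criterion -/
theorem conj_of {F : ℕ → ℝ} (h : ∀ η : ℝ, 0 < η → ∃ᶠ N : ℕ in atTop,
    (1 - η) * Nat.primeCounting N ≤ primesWith (fun p => AtMost p (F p)) N) : Conjecture := by
  by_contra hcon
  obtain ⟨a, ha, h1⟩ := not_conj hcon
  obtain ⟨N, h2, h3, h4⟩ := ((h (a / 2) (by positivity)).and_eventually
    (h1.and (eventually_ge_atTop 2))).exists
  have hπ := pi_pos h4
  have h5 : primesWith (fun p => AtMost p (F p)) N ≤
      primesWith (fun p => ¬ ∀ l, ¬ IsTotalStoppingTime p l) N :=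
    primesWith_mono (fun p _ ⟨l, hl, _⟩ hno => hno l hl)
  have h6 := primesWith_add (fun p => ∀ l, ¬ IsTotalStoppingTime p l) N
  have h7 : (primesWith (fun p => AtMost p (F p)) N : ℝ) +
      primesWith (fun p => ∀ l, ¬ IsTotalStoppingTime p l) N ≤ Nat.primeCounting N := by
    have : primesWith (fun p => AtMost p (F p)) N +
      primesWith (fun p => ∀ l, ¬ IsTotalStoppingTime p l) N ≤ Nat.primeCounting N := by omega
    exact_mod_cast this
  nlinarith

/-- almost all primes with a finite total stopping time satisfy the bound -/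
theorem above_zero {F : ℕ → ℝ} {K : ℝ} (hK : c < K) (hF : ∀ᶠ p : ℕ in atTop, K * Real.log p ≤ F p) :
    NoPrimes (fun p => (∃ l, IsTotalStoppingTime p l) ∧ ¬ AtMost p (F p)) := by
  obtain ⟨P₀, hP₀⟩ := eventually_atTop.1 hF
  refine ((bad_zero (show 0 < K - c by linarith)).or (L.noPrimes_small P₀)).mono ?_
  rintro p hp ⟨hfin, hno⟩
  by_cases hpp : p < P₀
  · exact Or.inr hpp
  · refine Or.inl ⟨hfin, ?_⟩
    rintro ⟨l, hl, hb⟩
    apply hno
    refine ⟨l, hl, le_trans ?_ (hP₀ p (by omega))⟩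
    have hlp : 0 < Real.log p := Real.log_pos (by exact_mod_cast hp.one_lt)
    have h1 := (abs_le.1 hb).2
    have h2 : (l : ℝ) / Real.log p ≤ K := by linarith
    rwa [div_le_iff₀ hlp] at h2

theorem below_zero {F : ℕ → ℝ} {K : ℝ} (hK : K < c) (hF : ∀ᶠ p : ℕ in atTop, F p ≤ K * Real.log p) :
    NoPrimes (fun p => AtMost p (F p)) := by
  obtain ⟨P₀, hP₀⟩ := eventually_atTop.1 hF
  refine ((bad_zero (show 0 < (c - K) / 2 by linarith)).or (L.noPrimes_small P₀)).mono ?_
  rintro p hp ⟨l, hl, hlF⟩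
  by_cases hpp : p < P₀
  · exact Or.inr hpp
  · refine Or.inl ⟨⟨l, hl⟩, ?_⟩
    rintro ⟨l', hl', hb⟩
    have e : l' = l := by
      rcases lt_trichotomy l' l with h | h | h
      · exact absurd hl'.1 (hl.2 l' h)
      · exact h
      · exact absurd hl.1 (hl'.2 l h)
    subst e
    have hlp : 0 < Real.log p := Real.log_pos (by exact_mod_cast hp.one_lt)
    have h1 := (abs_le.1 hb).1
    have h2 : (l' : ℝ) ≤ K * Real.log p := hlF.trans (hP₀ p (by omega))
    have h3 : (l' : ℝ) / Real.log p ≤ K := by rwa [div_le_iff₀ hlp]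
    linarith

theorem almostAll_eventually {P : ℕ → Prop} (h : AlmostAllPrimes P) {η : ℝ} (hη : 0 < η) :
    ∀ᶠ N : ℕ in atTop, (1 - η) * Nat.primeCounting N ≤ primesWith P N := by
  have h1 : ∀ᶠ N : ℕ in atTop, 1 - η < (primesWith P N : ℝ) / Nat.primeCounting N :=
    (tendsto_order.1 h).1 _ (by linarith)
  filter_upwards [h1, eventually_ge_atTop 2] with N h2 hN
  rw [lt_div_iff₀ (pi_pos hN)] at h2
  exact h2.le

/-- THE INEQUALITY `l(n) ≤ n` AT THE PRIMES. `c = 3 / log (4/3)`.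
(1) For every `ε > 0` almost all primes `p` have `l(p) = ∞` or `|l(p) / log p - c| ≤ ε`.
(2) There is `a > 0` such that for every `ε > 0` and all large `N` at least `a π(N)` of the primes `p ≤ N`
have a finite `l(p)` with `|l(p) / log p - c| ≤ ε`.
(3) If `l(n) = ∞` for some `n ≥ 1`, there is `a > 0` such that for all large `N` at least `a π(N)` of the
primes `p ≤ N` have `l(p) = ∞`.
(4) Let `F(p) ≥ K log p` for all large `p` and some `K > c`. Then almost all primes `p` satisfy `l(p) = ∞`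
or `l(p) ≤ F(p)`; the `3x+1` conjecture is true if and only if `l(p) ≤ F(p)` for almost all primes; and it
is true if for every `η > 0` there are infinitely many `N` such that `l(p) ≤ F(p)` for at least
`(1 - η) π(N)` of the primes `p ≤ N`.
(5) In particular, the `3x+1` conjecture is true if and only if `l(p) ≤ p` for almost all primes `p`, and
almost all primes `p` satisfy `l(p) = ∞` or `l(p) ≤ p`.
(6) Let `F(p) ≤ K log p` for all large `p` and some `K < c`. Then `l(p) > F(p)` (or `l(p) = ∞`) for almost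
all primes `p`. -/
theorem result :
    (∀ ε : ℝ, 0 < ε → AlmostAllPrimes fun p => (∀ l, ¬ IsTotalStoppingTime p l) ∨
      ∃ l : ℕ, IsTotalStoppingTime p l ∧ |(l : ℝ) / Real.log p - c| ≤ ε) ∧
    (∃ a : ℝ, 0 < a ∧ ∀ ε : ℝ, 0 < ε → ∀ᶠ N : ℕ in atTop, a * Nat.primeCounting N ≤
      primesWith (fun p => ∃ l : ℕ, IsTotalStoppingTime p l ∧ |(l : ℝ) / Real.log p - c| ≤ ε) N) ∧
    (¬ Conjecture → ∃ a : ℝ, 0 < a ∧ ∀ᶠ N : ℕ in atTop,
      a * Nat.primeCounting N ≤ primesWith (fun p => ∀ l, ¬ IsTotalStoppingTime p l) N) ∧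
    (∀ F : ℕ → ℝ, (∃ K : ℝ, c < K ∧ ∀ᶠ p : ℕ in atTop, K * Real.log p ≤ F p) →
      (AlmostAllPrimes fun p => (∀ l, ¬ IsTotalStoppingTime p l) ∨ AtMost p (F p)) ∧
      (Conjecture ↔ AlmostAllPrimes fun p => AtMost p (F p)) ∧
      ((∀ η : ℝ, 0 < η → ∃ᶠ N : ℕ in atTop,
        (1 - η) * Nat.primeCounting N ≤ primesWith (fun p => AtMost p (F p)) N) → Conjecture)) ∧
    ((Conjecture ↔ AlmostAllPrimes fun p => AtMost p p) ∧
      AlmostAllPrimes fun p => (∀ l, ¬ IsTotalStoppingTime p l) ∨ AtMost p p) ∧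
    (∀ F : ℕ → ℝ, (∃ K : ℝ, K < c ∧ ∀ᶠ p : ℕ in atTop, F p ≤ K * Real.log p) →
      AlmostAllPrimes fun p => ¬ AtMost p (F p)) := by
  have main : ∀ F : ℕ → ℝ, (∃ K : ℝ, c < K ∧ ∀ᶠ p : ℕ in atTop, K * Real.log p ≤ F p) →
      (AlmostAllPrimes fun p => (∀ l, ¬ IsTotalStoppingTime p l) ∨ AtMost p (F p)) ∧
      (Conjecture ↔ AlmostAllPrimes fun p => AtMost p (F p)) ∧
      ((∀ η : ℝ, 0 < η → ∃ᶠ N : ℕ in atTop,
        (1 - η) * Nat.primeCounting N ≤ primesWith (fun p => AtMost p (F p)) N) → Conjecture) := by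
    rintro F ⟨K, hK, hF⟩
    refine ⟨?_, ⟨fun hC => ?_, fun hA => ?_⟩, conj_of⟩
    · apply almostAll_of
      refine (above_zero hK hF).mono fun p _ hno => ?_
      rw [not_or] at hno
      push Not at hno
      exact ⟨hno.1, hno.2⟩
    · apply almostAll_of
      exact (above_zero hK hF).mono fun p hp hno => ⟨hC p hp.one_lt.le, hno⟩
    · exact conj_of (F := F) fun η hη => (almostAll_eventually hA hη).frequently
  refine ⟨fun ε hε => ?_, ?_, not_conj, main, ?_, ?_⟩
  · apply almostAll_of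
    refine (bad_zero hε).mono fun p _ hno => ?_
    rw [not_or] at hno
    push Not at hno
    refine ⟨hno.1, ?_⟩
    push Not
    exact hno.2
  · obtain ⟨a, ha, h1⟩ := inv_primes (fun n _ => Bas_inv n) (le_refl 1) (⟨0, rfl⟩ : Bas 1)
    refine ⟨a / 2, by positivity, fun ε hε => ?_⟩
    filter_upwards [h1, noPrimes_ncard (bad_zero hε) (show 0 < a / 2 by positivity)] with N h2 h3
    have h4 : primesWith Bas N ≤
        primesWith (fun p => ∃ l : ℕ, IsTotalStoppingTime p l ∧ |(l : ℝ) / Real.log p - c| ≤ ε) N +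
        primesWith (fun p => (∃ l, IsTotalStoppingTime p l) ∧
          ¬ ∃ l : ℕ, IsTotalStoppingTime p l ∧ |(l : ℝ) / Real.log p - c| ≤ ε) N := by
      unfold primesWith
      refine le_trans (Set.ncard_le_ncard ?_ (((Set.finite_Iic N).subset (fun p hp => hp.2.1)).union
        ((Set.finite_Iic N).subset (fun p hp => hp.2.1)))) (Set.ncard_union_le _ _)
      rintro p ⟨hp1, hp2, hp3⟩
      by_cases h4 : ∃ l : ℕ, IsTotalStoppingTime p l ∧ |(l : ℝ) / Real.log p - c| ≤ ε
      · exact Or.inl ⟨hp1, hp2, h4⟩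
      · exact Or.inr ⟨hp1, hp2, tot_of_Tn hp1.one_lt.le hp3, h4⟩
    have h5 : (primesWith Bas N : ℝ) ≤
        primesWith (fun p => ∃ l : ℕ, IsTotalStoppingTime p l ∧ |(l : ℝ) / Real.log p - c| ≤ ε) N +
        primesWith (fun p => (∃ l, IsTotalStoppingTime p l) ∧
          ¬ ∃ l : ℕ, IsTotalStoppingTime p l ∧ |(l : ℝ) / Real.log p - c| ≤ ε) N := by
      exact_mod_cast h4
    linarith
  · have hlin : ∃ K : ℝ, c < K ∧ ∀ᶠ p : ℕ in atTop, K * Real.log p ≤ ((p : ℕ) : ℝ) := by
      refine ⟨c + 1, by linarith, ?_⟩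
      have h1 : Tendsto (fun n : ℕ => Real.log n / n) atTop (𝓝 0) :=
        (Real.isLittleO_log_id_atTop.tendsto_div_nhds_zero).comp tendsto_natCast_atTop_atTop
      have hc : 0 < c := by
        unfold c
        have := Real.log_pos (show (1 : ℝ) < 4 / 3 by norm_num)
        positivity
      filter_upwards [(tendsto_order.1 h1).2 (1 / (c + 1)) (by positivity), eventually_ge_atTop 1]
        with p hp hp1
      have hp0 : (0 : ℝ) < p := by exact_mod_cast hp1
      rw [div_lt_div_iff₀ hp0 (by linarith)] at hp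
      linarith
    exact ⟨(main (fun p => (p : ℝ)) hlin).2.1, (main (fun p => (p : ℝ)) hlin).1⟩
  · rintro F ⟨K, hK, hF⟩
    apply almostAll_of
    refine (below_zero hK hF).mono fun p _ hno => ?_
    rwa [not_not] at hno

end Pool.Agent.Results.MP_e43fce_nt.PrimesInTheInequality
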